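import Pool.Agent.Y596.EV.Stm
import Pool.Agent.Y597.IP.Defs

/-!
# `NP` versus `coNP` near every oracle: statements
-/

set_option autoImplicit false

namespace Pool.Agent.Y596.NC

open Pool.Agent.NPC Pool.Agent.H620R2.Gauge
open Pool.Agent.Y596.EV (Sys Decides)
open Pool.Agent.Y597.IP (Strat IsIP)

/-- NC1. Interactive proofs are an instance of the abstract proof systems. -/
def S_ipsys : Prop := ∀ 𝒮 : Set Strat, ∃ S : ℕ → Sys, ∀ (A : Oracle) (L : Set (List Bool)),
  IsIP 𝒮 Set.univ (2 / 3) (1 / 3) A L → ∃ k, Decides (S k) A L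

end Pool.Agent.Y596.NC
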